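import Pool.Agent.Q177.HE.Type

/-!
Hyperbolic and elliptic lines on split cubic surfaces: surfaces without elliptic lines and surfaces
with twelve elliptic lines.
-/

set_option autoImplicit false

namespace Pool.Agent.Q177.HE

open Finset Pool.Agent.Q52.HE

section

variable {k : Type} [Field k] [Fintype k]

theorem rc (h2 : (2 : k) ≠ 0) : ringChar k ≠ 2 := by
  intro h
  apply h2
  have := ringChar.Nat.cast_ringChar (R := k)
  rw [h] at this
  exact_mod_cast this

/-- the sum of the quadratic character of `u² + 1` -/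
theorem sumf [DecidableEq k] (h2 : (2 : k) ≠ 0) : ∑ u : k, quadraticChar k (u ^ 2 + 1) = -1 := by
  classical
  let e : k × k ≃ k × k :=
    { toFun := fun p => (p.2 - p.1, p.2 + p.1)
      invFun := fun p => ((p.2 - p.1) / 2, (p.2 + p.1) / 2)
      left_inv := fun p => by
        ext
        · simp only
          field_simp
          ring
        · simp only
          field_simp
          ring
      right_inv := fun p => by
        ext
        · simp only
          field_simp
          ring
        · simp only
          field_simp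
          ring }
  have h1 : ∑ u : k, (quadraticChar k (u ^ 2 + 1) + 1) = Fintype.card k - 1 := by
    calc ∑ u : k, (quadraticChar k (u ^ 2 + 1) + 1)
        = ∑ u : k, ∑ v : k, (if v ^ 2 = u ^ 2 + 1 then (1 : ℤ) else 0) := by
          refine Finset.sum_congr rfl fun u _ => ?_
          rw [← quadraticChar_card_sqrts (rc h2), Finset.sum_boole]
          congr 2
          ext v
          simp
      _ = ∑ p : k × k, (if p.2 ^ 2 = p.1 ^ 2 + 1 then (1 : ℤ) else 0) :=
          (Fintype.sum_prod_type (fun p : k × k => if p.2 ^ 2 = p.1 ^ 2 + 1 then (1 : ℤ) else 0)).symm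
      _ = ∑ p : k × k, (if p.1 * p.2 = 1 then (1 : ℤ) else 0) := by
          refine Fintype.sum_equiv e _ _ fun p => ?_
          have h3 : p.2 ^ 2 = p.1 ^ 2 + 1 ↔ (e p).1 * (e p).2 = 1 := by
            change _ ↔ (p.2 - p.1) * (p.2 + p.1) = 1
            constructor
            · intro h
              linear_combination h
            · intro h
              linear_combination h
          by_cases h4 : p.2 ^ 2 = p.1 ^ 2 + 1
          · rw [if_pos h4, if_pos (h3.mp h4)]
          · rw [if_neg h4, if_neg (fun h => h4 (h3.mpr h))]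
      _ = ∑ t : k, ∑ s : k, (if t * s = 1 then (1 : ℤ) else 0) :=
          Fintype.sum_prod_type (fun p : k × k => if p.1 * p.2 = 1 then (1 : ℤ) else 0)
      _ = ∑ t : k, (if t ≠ 0 then (1 : ℤ) else 0) := by
          refine Finset.sum_congr rfl fun t _ => ?_
          by_cases ht : t = 0
          · subst ht
            simp
          · rw [if_pos ht, Finset.sum_eq_single t⁻¹]
            · rw [mul_inv_cancel₀ ht, if_pos rfl]
            · intro s _ hs
              rw [if_neg]
              intro h
              apply hs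
              field_simp
              linear_combination h
            · intro h
              exact absurd (Finset.mem_univ _) h
      _ = Fintype.card k - 1 := by
          rw [Finset.sum_boole, Finset.filter_ne', Finset.card_erase_of_mem (Finset.mem_univ _),
            Finset.card_univ]
          have : 1 ≤ Fintype.card k := Fintype.card_pos
          push_cast [this]
          ring
  rw [Finset.sum_add_distrib, Finset.sum_const, Finset.card_univ, nsmul_eq_mul, mul_one] at h1
  linarith

/-- the sum of the quadratic character of `-(u² + 1)` -/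
theorem sumg [DecidableEq k] (h2 : (2 : k) ≠ 0) :
    ∑ u : k, quadraticChar k (-(u ^ 2 + 1)) = -quadraticChar k (-1) := by
  have h1 : ∀ u : k, quadraticChar k (-(u ^ 2 + 1)) =
      quadraticChar k (-1) * quadraticChar k (u ^ 2 + 1) := by
    intro u
    rw [← map_mul]
    congr 1
    ring
  simp_rw [h1]
  rw [← Finset.mul_sum, sumf h2]
  ring

/-- the number of square roots of `-1` -/
theorem cardm [DecidableEq k] (h2 : (2 : k) ≠ 0) :
    ((univ.filter fun u : k => u ^ 2 = -1).card : ℤ) = 1 + quadraticChar k (-1) := by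
  have := quadraticChar_card_sqrts (rc h2) (-1 : k)
  rw [add_comm, ← this]
  congr 2
  ext u
  simp

theorem chi_bd [DecidableEq k] (a : k) : -1 ≤ quadraticChar k a ∧ quadraticChar k a ≤ 1 := by
  by_cases h : a = 0
  · rw [h, quadraticChar_zero]
    omega
  · rcases quadraticChar_dichotomy h with h | h <;> rw [h] <;> omega

/-- a value with given character -/
theorem exists_u [DecidableEq k] (h2 : (2 : k) ≠ 0) (ε : ℤ) (hε : ε = 1 ∨ ε = -1)
    (hc : 7 + (1 + ε) * quadraticChar k (-1) < Fintype.card k) :
    ∃ u : k, u ≠ 0 ∧ u ^ 4 ≠ 1 ∧ quadraticChar k (-(u ^ 2 + 1)) = ε := by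
  by_contra hcon
  push Not at hcon
  have h1 : ∑ u : k, (1 + ε * quadraticChar k (-(u ^ 2 + 1))) =
      Fintype.card k - ε * quadraticChar k (-1) := by
    rw [Finset.sum_add_distrib, ← Finset.mul_sum, sumg h2, Finset.sum_const, Finset.card_univ,
      nsmul_eq_mul]
    ring
  have h2' : ∀ u : k, (1 + ε * quadraticChar k (-(u ^ 2 + 1))) ≤
      (if u ∈ ({0, 1, -1} : Finset k) then 2 else 0) + (if u ^ 2 = -1 then 1 else 0) := by
    intro u
    have hb := chi_bd (-(u ^ 2 + 1))
    by_cases hu : u ∈ ({0, 1, -1} : Finset k)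
    · rw [if_pos hu]
      have : (0 : ℤ) ≤ (if u ^ 2 = -1 then 1 else 0) := by split_ifs <;> omega
      rcases hε with rfl | rfl <;> omega
    · rw [if_neg hu]
      simp only [Finset.mem_insert, Finset.mem_singleton, not_or] at hu
      by_cases hi : u ^ 2 = -1
      · rw [if_pos hi]
        have : -(u ^ 2 + 1) = 0 := by rw [hi]; ring
        rw [this, quadraticChar_zero]
        omega
      · rw [if_neg hi]
        have hu4 : u ^ 4 ≠ 1 := by
          intro h
          have : (u - 1) * ((u + 1) * (u ^ 2 + 1)) = 0 := by linear_combination h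
          rcases mul_eq_zero.mp this with h3 | h3
          · exact hu.2.1 (sub_eq_zero.mp h3)
          · rcases mul_eq_zero.mp h3 with h3 | h3
            · exact hu.2.2 (eq_neg_of_add_eq_zero_left h3)
            · exact hi (eq_neg_of_add_eq_zero_left h3)
        have h3 := hcon u hu.1 hu4
        have h4 : -(u ^ 2 + 1) ≠ 0 := by
          intro h
          exact hi (eq_neg_of_add_eq_zero_left (neg_eq_zero.mp h))
        rcases quadraticChar_dichotomy h4 with h5 | h5
        · rcases hε with rfl | rfl
          · exact absurd h5 h3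
          · rw [h5]; omega
        · rcases hε with rfl | rfl
          · rw [h5]; omega
          · exact absurd h5 h3
  have h3 := Finset.sum_le_sum (fun u (_ : u ∈ (univ : Finset k)) => h2' u)
  rw [h1, Finset.sum_add_distrib] at h3
  have h4 : ∑ u : k, (if u ∈ ({0, 1, -1} : Finset k) then (2 : ℤ) else 0) ≤ 6 := by
    rw [Finset.sum_ite_mem, Finset.univ_inter, Finset.sum_const, nsmul_eq_mul]
    have : (({0, 1, -1} : Finset k).card : ℤ) ≤ 3 := by exact_mod_cast Finset.card_le_three
    omega
  have h5 : ∑ u : k, (if u ^ 2 = -1 then (1 : ℤ) else 0) = 1 + quadraticChar k (-1) := by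
    rw [Finset.sum_boole]
    exact cardm h2
  rw [h5] at h3
  have : (1 + ε) * quadraticChar k (-1) = quadraticChar k (-1) + ε * quadraticChar k (-1) := by ring
  linarith

/-- the family of surfaces -/
def xx (u : k) : Fin 5 → k := ![0, 1, 1, u, 1]

/-- the family of surfaces -/
def yy (u : k) : Fin 5 → k := ![1, 0, 1, 1, u]

omit [Fintype k]

theorem nd_u {u : k} (h0 : u ≠ 0) (h4 : u ^ 4 ≠ 1) : ND (xx u) (yy u) := by
  have h1 : u ^ 2 ≠ 1 := by
    intro h
    apply h4
    linear_combination (u ^ 2 + 1) * h
  have h5 : u ^ 2 * u ^ 2 ≠ 1 := by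
    intro h
    apply h4
    linear_combination h
  have h1' : (1 : k) ≠ u ^ 2 := h1.symm
  have h5' : (1 : k) ≠ u ^ 2 * u ^ 2 := h5.symm
  intro i j hij
  fin_cases i <;> fin_cases j <;> first | exact absurd rfl hij | skip
  all_goals simp [xx, yy, h0, h1, h1', h5, h5', (pow_ne_zero 2 h0).symm]

theorem dd0 (u : k) : DD (xx u) (yy u) 0 = u * u := by
  rw [DD_eq, others0]; simp [xx, yy]; ring

theorem dd1 (u : k) : DD (xx u) (yy u) 1 = u * u := by
  rw [DD_eq, others1]; simp [xx, yy]; ring

theorem dd2 (u : k) : DD (xx u) (yy u) 2 = (1 - u ^ 2) * (1 - u ^ 2) := by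
  rw [DD_eq, others2]; simp [xx, yy]; ring

theorem dd3 (u : k) : DD (xx u) (yy u) 3 = -(u ^ 2 + 1) * (u * (u ^ 2 - 1)) ^ 2 := by
  rw [DD_eq, others3]; simp [xx, yy]; ring

theorem dd4 (u : k) : DD (xx u) (yy u) 4 = -(u ^ 2 + 1) * (u * (u ^ 2 - 1)) ^ 2 := by
  rw [DD_eq, others4]; simp [xx, yy]; ring

theorem rru (u : k) : RR (xx u) (yy u) = -(u ^ 2 + 1) * (u * (u + 1)) ^ 2 := by
  simp [RR, xx, yy]; ring

theorem e0_of {u : k} (h0 : u ≠ 0) (h4 : u ^ 4 ≠ 1) (hs : IsSquare (-(u ^ 2 + 1))) :
    ∃ x y : Fin 5 → k, ND x y ∧ (∀ i, IsSquare (DD x y i)) ∧ IsSquare (RR x y) := by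
  refine ⟨xx u, yy u, nd_u h0 h4, ?_, ?_⟩
  · intro i
    fin_cases i
    · exact ⟨u, dd0 u⟩
    · exact ⟨u, dd1 u⟩
    · exact ⟨_, dd2 u⟩
    · change IsSquare (DD (xx u) (yy u) 3)
      rw [dd3]
      exact hs.mul (IsSquare.sq _)
    · change IsSquare (DD (xx u) (yy u) 4)
      rw [dd4]
      exact hs.mul (IsSquare.sq _)
  · rw [rru]
    exact hs.mul (IsSquare.sq _)

end

theorem e12 : S_e12 := by
  intro k _ _ h2 hc
  classical
  obtain ⟨u, h0, h4, hu⟩ := exists_u h2 (-1) (Or.inr rfl) (by
    have : (9 : ℤ) ≤ Fintype.card k := by exact_mod_cast hc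
    have h3 : (1 + (-1 : ℤ)) * quadraticChar k (-1) = 0 := by ring
    rw [h3]
    linarith)
  rw [quadraticChar_neg_one_iff_not_isSquare] at hu
  have hb : u * (u ^ 2 - 1) ≠ 0 := by
    apply mul_ne_zero h0
    intro h
    apply h4
    linear_combination (u ^ 2 + 1) * h
  have hns : ¬ IsSquare (-(u ^ 2 + 1) * (u * (u ^ 2 - 1)) ^ 2) := by
    rintro ⟨r, hr⟩
    apply hu
    refine ⟨r / (u * (u ^ 2 - 1)), ?_⟩
    rw [div_mul_div_comm, eq_div_iff (mul_ne_zero hb hb)]
    linear_combination hr
  refine ⟨xx u, yy u, nd_u h0 h4, ?_⟩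
  have h5 : ∀ i, ¬ IsSquare (DD (xx u) (yy u) i) ↔ (i = 3 ∨ i = 4) := by
    intro i
    fin_cases i
    · exact ⟨fun h => absurd ⟨u, dd0 u⟩ h, fun h => absurd h (by decide)⟩
    · exact ⟨fun h => absurd ⟨u, dd1 u⟩ h, fun h => absurd h (by decide)⟩
    · exact ⟨fun h => absurd ⟨_, dd2 u⟩ h, fun h => absurd h (by decide)⟩
    · refine ⟨fun _ => Or.inl rfl, fun _ => ?_⟩
      change ¬ IsSquare (DD (xx u) (yy u) 3)
      rw [dd3]
      exact hns
    · refine ⟨fun _ => Or.inr rfl, fun _ => ?_⟩
      change ¬ IsSquare (DD (xx u) (yy u) 4)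
      rw [dd4]
      exact hns
  rw [Nat.card_congr (Equiv.subtypeEquivRight h5), Nat.card_eq_fintype_card]
  rfl

theorem e0 : S_e0 := by
  intro k _ _ h2 hc
  classical
  by_cases hlt : 7 + (1 + 1) * quadraticChar k (-1) < Fintype.card k
  · obtain ⟨u, h0, h4, hu⟩ := exists_u h2 1 (Or.inl rfl) hlt
    have hne : -(u ^ 2 + 1) ≠ 0 := by
      intro h
      rw [h, quadraticChar_zero] at hu
      exact zero_ne_one hu
    exact e0_of h0 h4 ((quadraticChar_one_iff_isSquare hne).mp hu)
  · have hb := chi_bd (-1 : k)
    have hc' : (7 : ℤ) ≤ Fintype.card k := by exact_mod_cast hc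
    have h10 : (-1 : k) ≠ 0 := neg_ne_zero.mpr one_ne_zero
    have hodd := FiniteField.odd_card_of_char_ne_two (rc h2)
    rcases quadraticChar_dichotomy h10 with h1 | h1
    · -- nine elements
      have hsq := (quadraticChar_one_iff_isSquare h10).mp h1
      have h3 := FiniteField.isSquare_neg_one_iff.mp hsq
      have h9 : Fintype.card k = 9 := by
        rw [h1] at hlt
        have h5 : (Fintype.card k : ℤ) ≤ 9 := by linarith
        have h6 : Fintype.card k ≤ 9 := by exact_mod_cast h5
        interval_cases h7 : Fintype.card k <;> omega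
      have h30 : (3 : k) = 0 := by
        have h6 : ((9 : ℕ) : k) = 0 := by rw [← h9]; exact FiniteField.cast_card_eq_zero k
        have h7 : (3 : k) * 3 = 0 := by
          push_cast at h6
          linear_combination h6
        exact mul_self_eq_zero.mp h7
      obtain ⟨i, hi⟩ := hsq
      have hi2 : i ^ 2 = -1 := by rw [hi]; ring
      have s3 : (1 - i) ^ 2 = i := by linear_combination hi2 - i * h30
      have s4 : (1 + i) ^ 2 = -i := by linear_combination hi2 + i * h30
      have hi0 : i ≠ 0 := by
        rintro rfl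
        apply h10
        rw [← hi2]
        ring
      have hi1 : i ≠ 1 := by
        rintro rfl
        apply h2
        linear_combination hi2
      have hi1' : i ≠ -1 := by
        rintro rfl
        apply h2
        linear_combination hi2
      have h11 : (-1 : k) ≠ 1 := by
        intro h
        apply h2
        linear_combination -h
      have h2i : i ≠ -i := by
        intro h
        have : 2 * i = 0 := by linear_combination h
        exact hi0 ((mul_eq_zero.mp this).resolve_left h2)
      have hni1 : -i ≠ 1 := by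
        intro h
        apply hi1'
        rw [← h]
        ring
      have hni1' : -i ≠ -1 := by
        intro h
        apply hi1
        exact neg_injective h
      refine ⟨![0, 1, i, 1 - i, 1 + i], ![1, 1, 1, 1, 1], ?_, ?_, ?_⟩
      · intro a b hab
        fin_cases a <;> fin_cases b <;> first | exact absurd rfl hab | skip
        all_goals simp [hi2, s3, s4, hi0, hi1, hi1', h11, h2i, hni1, hni1', hi1.symm, hi1'.symm,
          h11.symm, h2i.symm, hni1.symm, hni1'.symm, hi0.symm]
      · intro a
        rw [DD_eq]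
        fin_cases a
        · refine ⟨1 * i * (1 - i) * (1 + i), ?_⟩
          simp [others0]
          ring
        · refine ⟨2, ?_⟩
          simp [others1, hi2, s3, s4]
          linear_combination (-2) * hi2
        · refine ⟨2, ?_⟩
          simp [others2, hi2, s3, s4]
          linear_combination (-2) * hi2
        · refine ⟨2, ?_⟩
          simp [others3, hi2, s3, s4]
          linear_combination (2 * i ^ 2 - 4) * hi2
        · refine ⟨2, ?_⟩
          simp [others4, hi2, s3, s4]
          linear_combination (2 * i ^ 2 - 4) * hi2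
      · refine ⟨1 + i, ?_⟩
        have a1 : (1 - i) * (1 + i) = 2 := by linear_combination -hi2
        have a2 : (2 - i) * (2 + i) = 5 := by linear_combination -hi2
        have a3 : RR ![0, 1, i, 1 - i, 1 + i] ![1, 1, 1, 1, 1] =
            -(i * ((1 - i) * (1 + i)) * (1 + i) * ((2 - i) * (2 + i)) * (1 + 2 * i) * 2) := by
          simp [RR]
          ring
        rw [a3, a1, a2]
        linear_combination (-40 * i - 61) * hi2 + (6 * i + 20) * h30
    · exfalso
      rw [h1] at hlt
      apply hlt
      linarith

end Pool.Agent.Q177.HE
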