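import Pool.Agent.Q52.HE.Stm

/-!
Hyperbolic and elliptic lines on split cubic surfaces: the types of the 27 lines.
-/

set_option autoImplicit false

namespace Pool.Agent.Q177.HE

open Finset Pool.Agent.Q52.HE

section

variable {K : Type} [Field K]

theorem grad_arrN (β γ g3 g2 g1 g0 : K) (p : Fin 4 → K) :
    grad (arrN β γ g3 g2 g1 g0) p =
      ![2 * p 2 * p 0 + 2 * β * p 3 ^ 2, -2 * p 3 * p 1 + 2 * γ * p 2 ^ 2,
        p 0 ^ 2 + 4 * γ * p 2 * p 1 + 3 * g3 * p 2 ^ 2 + 2 * g2 * p 2 * p 3 + g1 * p 3 ^ 2,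
        -p 1 ^ 2 + 4 * β * p 3 * p 0 + g2 * p 2 ^ 2 + 2 * g1 * p 2 * p 3 + 3 * g0 * p 3 ^ 2] := by
  funext m
  fin_cases m <;> simp [grad, arrN, Fin.sum_univ_succ] <;> ring

theorem pc_sq0 (c y : Fin 5 → K) : pc (c ^ 2) (y ^ 2) 0 = pc c y 0 ^ 2 := by
  simp [pc]; ring

theorem pc_sq1 (c y : Fin 5 → K) :
    pc (c ^ 2) (y ^ 2) 1 = pc c y 1 ^ 2 - 2 * pc c y 0 * pc c y 2 := by
  simp [pc]; ring

theorem pc_sq2 (c y : Fin 5 → K) :
    pc (c ^ 2) (y ^ 2) 2 = pc c y 2 ^ 2 - 2 * pc c y 1 * pc c y 3 + 2 * pc c y 0 * pc c y 4 := by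
  simp [pc]; ring

theorem pc_sq3 (c y : Fin 5 → K) :
    pc (c ^ 2) (y ^ 2) 3 = pc c y 3 ^ 2 - 2 * pc c y 2 * pc c y 4 + 2 * pc c y 1 * pc c y 5 := by
  simp [pc]; ring

theorem pc_sq4 (c y : Fin 5 → K) :
    pc (c ^ 2) (y ^ 2) 4 = pc c y 4 ^ 2 - 2 * pc c y 3 * pc c y 5 := by
  simp [pc]; ring

theorem res_RR (c y : Fin 5 → K) :
    res2 (pc c y 1) (pc c y 3) (pc c y 5) (pc c y 0) (pc c y 2) (pc c y 4) = RR c y := by
  simp [pc, res2, RR]; ring

/-- elementary symmetric expressions of four pairs -/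
def Q1 (a b : Fin 4 → K) : K := a 0 * b 1 * b 2 * b 3 + b 0 * a 1 * b 2 * b 3 +
  b 0 * b 1 * a 2 * b 3 + b 0 * b 1 * b 2 * a 3

/-- elementary symmetric expressions of four pairs -/
def Q2 (a b : Fin 4 → K) : K := a 0 * a 1 * b 2 * b 3 + a 0 * b 1 * a 2 * b 3 +
  a 0 * b 1 * b 2 * a 3 + b 0 * a 1 * a 2 * b 3 + b 0 * a 1 * b 2 * a 3 + b 0 * b 1 * a 2 * a 3

theorem Q1_mem (F : Subfield K) {a b : Fin 4 → K} (ha : ∀ i, a i ∈ F) (hb : ∀ i, b i ∈ F) :
    Q1 a b ∈ F := by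
  unfold Q1
  repeat' first | exact ha _ | exact hb _ | apply F.add_mem | apply F.mul_mem

theorem Q2_mem (F : Subfield K) {a b : Fin 4 → K} (ha : ∀ i, a i ∈ F) (hb : ∀ i, b i ∈ F) :
    Q2 a b ∈ F := by
  unfold Q2
  repeat' first | exact ha _ | exact hb _ | apply F.add_mem | apply F.mul_mem

theorem others0 (x : Fin 5 → K) : others x 0 = x 1 * x 2 * x 3 * x 4 := by
  unfold others
  rw [show (univ.erase (0 : Fin 5)) = {1, 2, 3, 4} by decide]
  simp
  ring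

theorem others1 (x : Fin 5 → K) : others x 1 = x 0 * x 2 * x 3 * x 4 := by
  unfold others
  rw [show (univ.erase (1 : Fin 5)) = {0, 2, 3, 4} by decide]
  simp
  ring

theorem others2 (x : Fin 5 → K) : others x 2 = x 0 * x 1 * x 3 * x 4 := by
  unfold others
  rw [show (univ.erase (2 : Fin 5)) = {0, 1, 3, 4} by decide]
  simp
  ring

theorem others3 (x : Fin 5 → K) : others x 3 = x 0 * x 1 * x 2 * x 4 := by
  unfold others
  rw [show (univ.erase (3 : Fin 5)) = {0, 1, 2, 4} by decide]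
  simp
  ring

theorem others4 (x : Fin 5 → K) : others x 4 = x 0 * x 1 * x 2 * x 3 := by
  unfold others
  rw [show (univ.erase (4 : Fin 5)) = {0, 1, 2, 3} by decide]
  simp
  ring

theorem DD_eq (x y : Fin 5 → K) (i : Fin 5) :
    DD x y i = others (fun j => x i ^ 2 * y j ^ 2 - x j ^ 2 * y i ^ 2) i := rfl

/-- the coefficients of the quintic with one factor split off -/
theorem data (x y : Fin 5 → K) (i : Fin 5) : ∃ q1 q2 q3 : K,
    pr x = x i * others x i ∧ pr y = y i * others y i ∧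
    pc (x ^ 2) (y ^ 2) 1 = y i ^ 2 * q1 + x i ^ 2 * others y i ^ 2 ∧
    pc (x ^ 2) (y ^ 2) 2 = y i ^ 2 * q2 + x i ^ 2 * q1 ∧
    pc (x ^ 2) (y ^ 2) 3 = y i ^ 2 * q3 + x i ^ 2 * q2 ∧
    pc (x ^ 2) (y ^ 2) 4 = y i ^ 2 * others x i ^ 2 + x i ^ 2 * q3 ∧
    DD x y i = x i ^ 8 * others y i ^ 2 - q1 * x i ^ 6 * y i ^ 2 + q2 * x i ^ 4 * y i ^ 4 -
      q3 * x i ^ 2 * y i ^ 6 + others x i ^ 2 * y i ^ 8 ∧
    ∀ F : Subfield K, (∀ i, x i ∈ F) → (∀ i, y i ∈ F) → q1 ∈ F ∧ q2 ∈ F ∧ q3 ∈ F := by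
  rw [DD_eq]
  fin_cases i
  · refine ⟨Q1 ![x 1 ^ 2, x 2 ^ 2, x 3 ^ 2, x 4 ^ 2] ![y 1 ^ 2, y 2 ^ 2, y 3 ^ 2, y 4 ^ 2],
      Q2 ![x 1 ^ 2, x 2 ^ 2, x 3 ^ 2, x 4 ^ 2] ![y 1 ^ 2, y 2 ^ 2, y 3 ^ 2, y 4 ^ 2],
      Q1 ![y 1 ^ 2, y 2 ^ 2, y 3 ^ 2, y 4 ^ 2] ![x 1 ^ 2, x 2 ^ 2, x 3 ^ 2, x 4 ^ 2], ?_, ?_, ?_,
      ?_, ?_, ?_, ?_, fun F hx hy => ⟨Q1_mem F (by intro k; fin_cases k <;> exact F.pow_mem (hx _) 2)
      (by intro k; fin_cases k <;> exact F.pow_mem (hy _) 2), Q2_mem F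
      (by intro k; fin_cases k <;> exact F.pow_mem (hx _) 2)
      (by intro k; fin_cases k <;> exact F.pow_mem (hy _) 2), Q1_mem F
      (by intro k; fin_cases k <;> exact F.pow_mem (hy _) 2)
      (by intro k; fin_cases k <;> exact F.pow_mem (hx _) 2)⟩⟩ <;> simp [others0, pc, pr, Q1, Q2] <;> ring
  · refine ⟨Q1 ![x 0 ^ 2, x 2 ^ 2, x 3 ^ 2, x 4 ^ 2] ![y 0 ^ 2, y 2 ^ 2, y 3 ^ 2, y 4 ^ 2],
      Q2 ![x 0 ^ 2, x 2 ^ 2, x 3 ^ 2, x 4 ^ 2] ![y 0 ^ 2, y 2 ^ 2, y 3 ^ 2, y 4 ^ 2],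
      Q1 ![y 0 ^ 2, y 2 ^ 2, y 3 ^ 2, y 4 ^ 2] ![x 0 ^ 2, x 2 ^ 2, x 3 ^ 2, x 4 ^ 2], ?_, ?_, ?_,
      ?_, ?_, ?_, ?_, fun F hx hy => ⟨Q1_mem F (by intro k; fin_cases k <;> exact F.pow_mem (hx _) 2)
      (by intro k; fin_cases k <;> exact F.pow_mem (hy _) 2), Q2_mem F
      (by intro k; fin_cases k <;> exact F.pow_mem (hx _) 2)
      (by intro k; fin_cases k <;> exact F.pow_mem (hy _) 2), Q1_mem F
      (by intro k; fin_cases k <;> exact F.pow_mem (hy _) 2)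
      (by intro k; fin_cases k <;> exact F.pow_mem (hx _) 2)⟩⟩ <;> simp [others1, pc, pr, Q1, Q2] <;> ring
  · refine ⟨Q1 ![x 0 ^ 2, x 1 ^ 2, x 3 ^ 2, x 4 ^ 2] ![y 0 ^ 2, y 1 ^ 2, y 3 ^ 2, y 4 ^ 2],
      Q2 ![x 0 ^ 2, x 1 ^ 2, x 3 ^ 2, x 4 ^ 2] ![y 0 ^ 2, y 1 ^ 2, y 3 ^ 2, y 4 ^ 2],
      Q1 ![y 0 ^ 2, y 1 ^ 2, y 3 ^ 2, y 4 ^ 2] ![x 0 ^ 2, x 1 ^ 2, x 3 ^ 2, x 4 ^ 2], ?_, ?_, ?_,
      ?_, ?_, ?_, ?_, fun F hx hy => ⟨Q1_mem F (by intro k; fin_cases k <;> exact F.pow_mem (hx _) 2)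
      (by intro k; fin_cases k <;> exact F.pow_mem (hy _) 2), Q2_mem F
      (by intro k; fin_cases k <;> exact F.pow_mem (hx _) 2)
      (by intro k; fin_cases k <;> exact F.pow_mem (hy _) 2), Q1_mem F
      (by intro k; fin_cases k <;> exact F.pow_mem (hy _) 2)
      (by intro k; fin_cases k <;> exact F.pow_mem (hx _) 2)⟩⟩ <;> simp [others2, pc, pr, Q1, Q2] <;> ring
  · refine ⟨Q1 ![x 0 ^ 2, x 1 ^ 2, x 2 ^ 2, x 4 ^ 2] ![y 0 ^ 2, y 1 ^ 2, y 2 ^ 2, y 4 ^ 2],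
      Q2 ![x 0 ^ 2, x 1 ^ 2, x 2 ^ 2, x 4 ^ 2] ![y 0 ^ 2, y 1 ^ 2, y 2 ^ 2, y 4 ^ 2],
      Q1 ![y 0 ^ 2, y 1 ^ 2, y 2 ^ 2, y 4 ^ 2] ![x 0 ^ 2, x 1 ^ 2, x 2 ^ 2, x 4 ^ 2], ?_, ?_, ?_,
      ?_, ?_, ?_, ?_, fun F hx hy => ⟨Q1_mem F (by intro k; fin_cases k <;> exact F.pow_mem (hx _) 2)
      (by intro k; fin_cases k <;> exact F.pow_mem (hy _) 2), Q2_mem F
      (by intro k; fin_cases k <;> exact F.pow_mem (hx _) 2)
      (by intro k; fin_cases k <;> exact F.pow_mem (hy _) 2), Q1_mem F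
      (by intro k; fin_cases k <;> exact F.pow_mem (hy _) 2)
      (by intro k; fin_cases k <;> exact F.pow_mem (hx _) 2)⟩⟩ <;> simp [others3, pc, pr, Q1, Q2] <;> ring
  · refine ⟨Q1 ![x 0 ^ 2, x 1 ^ 2, x 2 ^ 2, x 3 ^ 2] ![y 0 ^ 2, y 1 ^ 2, y 2 ^ 2, y 3 ^ 2],
      Q2 ![x 0 ^ 2, x 1 ^ 2, x 2 ^ 2, x 3 ^ 2] ![y 0 ^ 2, y 1 ^ 2, y 2 ^ 2, y 3 ^ 2],
      Q1 ![y 0 ^ 2, y 1 ^ 2, y 2 ^ 2, y 3 ^ 2] ![x 0 ^ 2, x 1 ^ 2, x 2 ^ 2, x 3 ^ 2], ?_, ?_, ?_,
      ?_, ?_, ?_, ?_, fun F hx hy => ⟨Q1_mem F (by intro k; fin_cases k <;> exact F.pow_mem (hx _) 2)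
      (by intro k; fin_cases k <;> exact F.pow_mem (hy _) 2), Q2_mem F
      (by intro k; fin_cases k <;> exact F.pow_mem (hx _) 2)
      (by intro k; fin_cases k <;> exact F.pow_mem (hy _) 2), Q1_mem F
      (by intro k; fin_cases k <;> exact F.pow_mem (hy _) 2)
      (by intro k; fin_cases k <;> exact F.pow_mem (hx _) 2)⟩⟩ <;> simp [others4, pc, pr, Q1, Q2] <;> ring

theorem lin2 {u v : Fin 4 → K} (i j : Fin 4) (h : u i * v j - u j * v i ≠ 0) :
    LinearIndependent K ![u, v] := by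
  rw [LinearIndependent.pair_iff]
  intro s t hst
  have h1 : s * u i + t * v i = 0 := congrFun hst i
  have h2 : s * u j + t * v j = 0 := congrFun hst j
  have h3 : s * (u i * v j - u j * v i) = 0 := by linear_combination v j * h1 - v i * h2
  have h4 : t * (u i * v j - u j * v i) = 0 := by linear_combination u i * h2 - u j * h1
  exact ⟨(mul_eq_zero.mp h3).resolve_right h, (mul_eq_zero.mp h4).resolve_right h⟩

theorem pc_mem (F : Subfield K) {c d : Fin 5 → K} (hc : ∀ i, c i ∈ F) (hd : ∀ i, d i ∈ F)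
    (k : Fin 6) : pc c d k ∈ F := by
  fin_cases k <;> simp [pc] <;>
    repeat' first | exact hc _ | exact hd _ | apply F.add_mem | apply F.mul_mem

theorem arrS_sg (s : Sg) (x y : Fin 5 → K) : arrS (sg s.1 x) y = arrS x y := by
  have h1 : (sg s.1 x) ^ 2 = x ^ 2 := by
    funext i
    change (((s.1 i : ℤ) : K) * x i) ^ 2 = x i ^ 2
    rw [mul_pow]
    rcases Int.units_eq_one_or (s.1 i) with h | h <;> rw [h] <;> simp
  have h2 : pr (sg s.1 x) = pr x := by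
    have h3 : ((∏ i, (s.1 i : ℤˣ) : ℤˣ) : ℤ) = 1 := by rw [s.2]; rfl
    have h4 : (((s.1 0 : ℤ) * (s.1 1 : ℤ) * (s.1 2 : ℤ) * (s.1 3 : ℤ) * (s.1 4 : ℤ) : ℤ) : K) = 1 := by
      rw [Fin.prod_univ_five] at h3
      push_cast at h3
      rw [h3, Int.cast_one]
    push_cast at h4
    unfold pr sg
    linear_combination (x 0 * x 1 * x 2 * x 3 * x 4) * h4
  unfold arrS
  rw [h1, h2]

theorem sg_mem (F : Subfield K) (s : Sg) {x : Fin 5 → K} (hx : ∀ i, x i ∈ F) (i : Fin 5) :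
    sg s.1 x i ∈ F := F.mul_mem (intCast_mem F _) (hx i)

end

theorem type (h : S_pencil) : S_type := by
  intro K _ F h2 x y hxF hyF hnd
  have hne : ∀ i, ¬ (x i = 0 ∧ y i = 0) := by
    rintro i ⟨h3, h4⟩
    obtain ⟨j, hj⟩ : ∃ j, i ≠ j := ⟨i + 1, by fin_cases i <;> decide⟩
    apply hnd i j hj
    rw [h3, h4]
    ring
  have h20 : (2 : K) ∈ F := by
    have := F.add_mem F.one_mem F.one_mem
    rwa [one_add_one_eq_two] at this
  refine ⟨?_, ?_, ?_⟩
  · -- the line at infinity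
    have key := h K F h2 (arrS x y) ![1, 0, 0, 0] ![0, 1, 0, 0] ![0, 0, 1, 0] ![0, 0, 0, 1]
      1 0 0 0 0 (-1) (by intro i; fin_cases i <;> simp [F.zero_mem, F.one_mem])
      (by intro i; fin_cases i <;> simp [F.zero_mem, F.one_mem]) (lin2 0 1 (by simp))
      (lin2 2 3 (by simp)) F.one_mem F.zero_mem F.zero_mem F.zero_mem F.zero_mem
      (F.neg_mem F.one_mem) (by
        intro α β
        unfold arrS
        rw [grad_arrN]
        funext m
        fin_cases m <;> simp) (by simp [res2])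
    have hsq : SqF F (res2 1 0 0 0 0 (-1) : K) := ⟨1, F.one_mem, by simp [res2]⟩
    exact ⟨key.1.2 hsq, fun he => key.2.1 he hsq⟩
  · intro i e he
    have he2 : e * e = 1 := by rcases he with rfl | rfl <;> ring
    have heF : e ∈ F := by
      rcases he with rfl | rfl
      · exact F.one_mem
      · exact F.neg_mem F.one_mem
    have he0 : e ≠ 0 := by
      rintro rfl
      simp at he2
    obtain ⟨q1, q2, q3, hpx, hpy, hp1, hp2, hp3, hp4, hDD, hq⟩ := data x y i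
    obtain ⟨hq1, hq2, hq3⟩ := hq F hxF hyF
    have hX : others x i ∈ F := F.prod_mem fun j _ => hxF j
    have hY : others y i ∈ F := F.prod_mem fun j _ => hyF j
    have hDD0 : DD x y i ≠ 0 := by
      unfold DD
      rw [Finset.prod_ne_zero_iff]
      intro j hj
      exact sub_ne_zero.mpr (hnd i j (Finset.ne_of_mem_erase hj).symm)
    have hxi := hxF i
    have hyi := hyF i
    have hnei := hne i
    have h40 : (4 : K) ≠ 0 := by
      rw [show (4 : K) = 2 * 2 by norm_num]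
      exact mul_ne_zero h2 h2
    unfold lineL arrS
    rw [hpx, hpy, hp1, hp2, hp3, hp4]
    generalize DD x y i = Dl at *
    generalize others x i = X at *
    generalize others y i = Y at *
    generalize x i = a at *
    generalize y i = b at *
    have hres : res2 0 (2 * a * b) (2 * (X * b ^ 4 - e * Y * a ^ 4)) 1 0
        (-a ^ 4 * q1 + a ^ 2 * b ^ 2 * q2 - b ^ 4 * q3 + 2 * e * X * Y * a ^ 2 * b ^ 2) =
        4 * Dl := by
      rw [hDD]
      unfold res2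
      linear_combination (4 * Y ^ 2 * a ^ 8) * he2
    have key := h K F h2 (arrN (a * X) (-(b * Y)) (-(b ^ 2 * q1 + a ^ 2 * Y ^ 2))
      (b ^ 2 * q2 + a ^ 2 * q1) (-(b ^ 2 * q3 + a ^ 2 * q2)) (b ^ 2 * X ^ 2 + a ^ 2 * q3))
      ![b, -e * a, 0, 0] ![-e * Y * a ^ 3, -e * X * b ^ 3, a ^ 2, b ^ 2]
      ![a, e * b, e * a ^ 2 * Y, b ^ 2 * X] ![0, 0, b ^ 2, -a ^ 2]
      0 (2 * a * b) (2 * (X * b ^ 4 - e * Y * a ^ 4)) 1 0
      (-a ^ 4 * q1 + a ^ 2 * b ^ 2 * q2 - b ^ 4 * q3 + 2 * e * X * Y * a ^ 2 * b ^ 2)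
      (by
        intro i
        fin_cases i
        · exact hyi
        · exact F.mul_mem (F.neg_mem heF) hxi
        · exact F.zero_mem
        · exact F.zero_mem)
      (by
        intro i
        fin_cases i
        · exact F.mul_mem (F.mul_mem (F.neg_mem heF) hY) (F.pow_mem hxi 3)
        · exact F.mul_mem (F.mul_mem (F.neg_mem heF) hX) (F.pow_mem hyi 3)
        · exact F.pow_mem hxi 2
        · exact F.pow_mem hyi 2)
      (by
        by_cases hb : b = 0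
        · have ha : a ≠ 0 := fun ha => hnei ⟨ha, hb⟩
          apply lin2 1 2
          simp [ha, he0]
        · apply lin2 0 3
          simp [hb])
      (by
        by_cases hb : b = 0
        · have ha : a ≠ 0 := fun ha => hnei ⟨ha, hb⟩
          apply lin2 0 3
          simp [ha]
        · apply lin2 1 2
          simp [hb, he0])
      F.zero_mem
      (F.mul_mem (F.mul_mem h20 hxi) hyi)
      (F.mul_mem h20 (F.sub_mem (F.mul_mem hX (F.pow_mem hyi 4))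
        (F.mul_mem (F.mul_mem heF hY) (F.pow_mem hxi 4))))
      F.one_mem F.zero_mem
      (by
        apply F.add_mem
        · apply F.sub_mem
          · apply F.add_mem
            · exact F.mul_mem (F.neg_mem (F.pow_mem hxi 4)) hq1
            · exact F.mul_mem (F.mul_mem (F.pow_mem hxi 2) (F.pow_mem hyi 2)) hq2
          · exact F.mul_mem (F.pow_mem hyi 4) hq3
        · exact F.mul_mem (F.mul_mem (F.mul_mem (F.mul_mem (F.mul_mem h20 heF) hX) hY)
            (F.pow_mem hxi 2)) (F.pow_mem hyi 2))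
      (by
        intro α β
        rw [grad_arrN]
        funext m
        fin_cases m
        · simp
          ring
        · simp
          linear_combination (2 * β ^ 2 * b * Y * a ^ 4) * he2
        · simp
          linear_combination (β ^ 2 * Y ^ 2 * a ^ 6 + 2 * β ^ 2 * Y ^ 2 * a ^ 6) * he2
        · simp
          linear_combination (-α ^ 2 * a ^ 2 - 2 * α * β * a * X * b ^ 3 - β ^ 2 * X ^ 2 * b ^ 6) * he2)
      (by
        rw [hres]
        exact mul_ne_zero h40 hDD0)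
    rw [hres] at key
    have hsq : SqF F (4 * Dl) ↔ SqF F Dl := by
      constructor
      · rintro ⟨r, hr, hrr⟩
        refine ⟨r / 2, F.div_mem hr h20, ?_⟩
        field_simp
        linear_combination hrr
      · rintro ⟨r, hr, hrr⟩
        refine ⟨2 * r, F.mul_mem h20 hr, ?_⟩
        linear_combination 4 * hrr
    rw [hsq] at key
    exact key
  · intro s
    rw [← arrS_sg s x y]
    have hcF := sg_mem F s hxF
    have hndc : ND (sg s.1 x) y := by
      intro i j hij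
      have h1 : ∀ i, sg s.1 x i ^ 2 = x i ^ 2 := by
        intro i
        change (((s.1 i : ℤ) : K) * x i) ^ 2 = x i ^ 2
        rw [mul_pow]
        rcases Int.units_eq_one_or (s.1 i) with h | h <;> rw [h] <;> simp
      rw [h1, h1]
      exact hnd i j hij
    generalize sg s.1 x = c at *
    have hpc := pc_mem F hcF hyF
    have hE1 := pc_sq1 c y
    have hE2 := pc_sq2 c y
    have hE3 := pc_sq3 c y
    have hE4 := pc_sq4 c y
    have hpr : pr c = pc c y 5 := by simp [pr, pc]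
    have hpy : pr y = pc c y 0 := by simp [pr, pc]
    have hres := res_RR c y
    have hRR0 : RR c y ≠ 0 := by
      have h1 : ∀ i j, i ≠ j → c i * y j + c j * y i ≠ 0 := by
        intro i j hij h0
        apply hndc i j hij
        linear_combination (c i * y j - c j * y i) * h0
      unfold RR
      simp only [neg_ne_zero]
      repeat' first | apply mul_ne_zero | exact h1 _ _ (by decide)
    unfold lineM arrS
    rw [hpr, hpy, hE1, hE2, hE3, hE4]
    generalize RR c y = Rl at *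
    have g0 := hpc 0
    have g1 := hpc 1
    have g2 := hpc 2
    have g3 := hpc 3
    have g4 := hpc 4
    have g5 := hpc 5
    generalize pc c y 0 = e0 at *
    generalize pc c y 1 = e1 at *
    generalize pc c y 2 = e2 at *
    generalize pc c y 3 = e3 at *
    generalize pc c y 4 = e4 at *
    generalize pc c y 5 = e5 at *
    have key := h K F h2 (arrN e5 (-e0) (-(e1 ^ 2 - 2 * e0 * e2))
      (e2 ^ 2 - 2 * e1 * e3 + 2 * e0 * e4) (-(e3 ^ 2 - 2 * e2 * e4 + 2 * e1 * e5))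
      (e4 ^ 2 - 2 * e3 * e5))
      ![e1, e2, 1, 0] ![e3, e4, 0, 1] ![2, 0, -2 * e1, -2 * e3] ![0, -2, 2 * e2, 2 * e4]
      e1 e3 e5 e0 e2 e4
      (by
        intro i
        fin_cases i
        · exact g1
        · exact g2
        · exact F.one_mem
        · exact F.zero_mem)
      (by
        intro i
        fin_cases i
        · exact g3
        · exact g4
        · exact F.zero_mem
        · exact F.one_mem)
      (lin2 2 3 (by simp)) (lin2 0 1 (by simp [h2])) g1 g3 g5 g0 g2 g4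
      (by
        intro α β
        rw [grad_arrN]
        funext m
        fin_cases m <;> simp <;> ring)
      (by
        rw [hres]
        exact hRR0)
    rw [hres] at key
    exact key

end Pool.Agent.Q177.HE
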